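import Pool.Agent.EDX.Stmts2
import Pool.Agent.Helper24_EDG.MOA
import Pool.Agent.Helper60_EDG.MOB

/-!
# Squad EDX, row FUL (helper45)
-/

set_option autoImplicit false

namespace Pool.Agent.EDX.H45

open Polynomial Finset Pool.Agent.EDG Pool.Agent.EDX Module

theorem mem_rts {n : ℕ} {g : ℤ[X]} (hc : Cyc n g) (θ : FF) :
    θ ∈ rts g ↔ (g.map (Int.castRingHom FF)).eval θ = 0 := by
  classical
  unfold rts
  rw [Multiset.mem_toFinset, mem_roots (hc.monic.map _).ne_zero, IsRoot.def]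

theorem card_rts {n : ℕ} {g : ℤ[X]} (hc : Cyc n g) : (rts g).card = g.natDegree := by
  classical
  have h1 := (Pool.Agent.EDG.H60.mob Pool.Agent.EDG.H24.moa n g hc).1
  have h2 : (g.map (Int.castRingHom FF)).Separable := by
    have h3 := h1.map (f := algebraMap (ZMod 2) FF)
    rw [Polynomial.map_map] at h3
    have h4 : (algebraMap (ZMod 2) FF).comp (Int.castRingHom (ZMod 2)) = Int.castRingHom FF :=
      RingHom.ext_int _ _
    rwa [h4] at h3
  unfold rts
  rw [Multiset.toFinset_card_of_nodup (nodup_roots h2),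
    (splits_iff_card_roots.1 (IsAlgClosed.splits (g.map (Int.castRingHom FF)))),
    hc.monic.natDegree_map]

theorem pow_inj (i : ℕ) {a b : FF} (h : a ^ 2 ^ i = b ^ 2 ^ i) : a = b := by
  have : CharP FF 2 := AlgebraicClosure.instCharP (ZMod 2)
  have : ExpChar FF 2 := ExpChar.prime Nat.prime_two
  exact iterateFrobenius_inj FF 2 i (by rw [iterateFrobenius_def, iterateFrobenius_def, h])

theorem pow_mem {n : ℕ} {g : ℤ[X]} (hc : Cyc n g) {θ : FF} (hθ : θ ∈ rts g) (i : ℕ) :
    θ ^ 2 ^ i ∈ rts g := by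
  have : CharP FF 2 := AlgebraicClosure.instCharP (ZMod 2)
  have : ExpChar FF 2 := ExpChar.prime Nat.prime_two
  rw [mem_rts hc] at hθ ⊢
  have h1 := hom_eval₂ g (Int.castRingHom FF) (iterateFrobenius FF 2 i) θ
  rw [← eval_map, hθ, map_zero] at h1
  have h2 : (iterateFrobenius FF 2 i).comp (Int.castRingHom FF) = Int.castRingHom FF :=
    RingHom.ext_int _ _
  rw [h2, ← eval_map, iterateFrobenius_def] at h1
  exact h1.symm

theorem pow_ne {n : ℕ} {g : ℤ[X]} (hc : Cyc n g) {θ : FF} (hθ : θ ∈ rts g) {i j : ℕ}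
    (hij : i < j) (hj : j < n) : θ ^ 2 ^ i ≠ θ ^ 2 ^ j := by
  intro h
  have : CharP FF 2 := AlgebraicClosure.instCharP (ZMod 2)
  have h0 : aeval θ g = 0 := by
    rw [mem_rts hc, eval_map] at hθ
    rw [aeval_def]
    exact hθ
  have h1 := (Pool.Agent.EDG.H24.moa n g hc FF θ h0).2 (j - i) (by omega) (by omega)
  refine h1 (pow_inj i ?_)
  rw [← pow_mul, ← pow_add, Nat.sub_add_cancel hij.le, h]

theorem pow_ne' {n : ℕ} {g : ℤ[X]} (hc : Cyc n g) {θ : FF} (hθ : θ ∈ rts g) {i j : Fin n}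
    (hij : i ≠ j) : θ ^ 2 ^ (i : ℕ) ≠ θ ^ 2 ^ (j : ℕ) := by
  rcases lt_trichotomy (i : ℕ) (j : ℕ) with h | h | h
  · exact pow_ne hc hθ h j.2
  · exact absurd (Fin.ext h) hij
  · exact (pow_ne hc hθ h i.2).symm

theorem Lg_eval_self {g : ℤ[X]} {θ : FF} (hθ : θ ∈ rts g) : (Lg g θ).eval θ = 1 := by
  classical
  exact Lagrange.eval_basis_self (v := id) (fun a _ b _ h => h) hθ

theorem Lg_eval_ne {g : ℤ[X]} {θ ξ : FF} (hξ : ξ ∈ rts g) (h : θ ≠ ξ) : (Lg g θ).eval ξ = 0 := by
  classical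
  exact Lagrange.eval_basis_of_ne (v := id) h hξ

/-- Row FUL. -/
theorem ful (hR : RedStmt) (hB : MdbStmt) : FulStmt := by
  classical
  intro n g hc k hk
  by_contra hne
  have hpos : 0 < finrank ℚ (LQ n g n k) := Submodule.one_le_finrank_iff.2 hne
  obtain ⟨b, hb, hli⟩ := hR (Fin n × Fin g.natDegree) (LQ n g n k)
  have hP := hb ⟨0, hpos⟩
  have hP0 := hli.ne_zero (⟨0, hpos⟩ : Fin (finrank ℚ (LQ n g n k)))
  generalize b ⟨0, hpos⟩ = P at hP hP0
  clear hli hb
  rw [mem_LQ] at hP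
  obtain ⟨Pb, hPb⟩ : ∃ Pb : Fin n × Fin g.natDegree → FF, Pb = fun x => ((P x : ℤ) : FF) :=
    ⟨_, rfl⟩
  have hco : ∀ e < 2 ^ k, ∀ j, g.natDegree ≤ j + n → (NP FF n g Pb e).coeff j = 0 := by
    intro e he j hj
    have h1 := hP e he j hj
    have h2 := NP_map (Int.castRingHom ℚ) n g hc.monic P e
    have h3 : (NP ℤ n g P e).coeff j = 0 := by
      have h4 : ((NP ℤ n g P e).map (Int.castRingHom ℚ)).coeff j = 0 := by
        rw [h2]; exact h1
      rw [coeff_map, eq_intCast] at h4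
      exact_mod_cast h4
    have h5 := NP_map (Int.castRingHom FF) n g hc.monic P e
    have h6 : (NP FF n g Pb e) = (NP ℤ n g P e).map (Int.castRingHom FF) := by
      rw [h5, hPb]; rfl
    rw [h6, coeff_map, h3, map_zero]
  have hcard := card_rts hc
  have hDpos : 0 < g.natDegree := hc.natDegree_pos
  -- the polynomial of a root
  have hT : ∀ ω ∈ rts g, ∀ ξ ∈ rts g,
      ∑ i : Fin n, (pol Pb i).eval ξ * (Lg g ω).eval (ξ ^ (2 ^ (i : ℕ))) = 0 := by
    intro ω hω ξ hξ
    have hdeg : ((Lg g ω).map (C : FF →+* FF[X])).natDegree < g.natDegree := by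
      refine lt_of_le_of_lt natDegree_map_le ?_
      have h1 : (Lg g ω).degree = ((rts g).card - 1 : ℕ) :=
        Lagrange.degree_basis (v := id) (fun a _ b _ h => h) hω
      rw [natDegree_eq_of_degree_eq_some h1, hcard]
      omega
    have h1 := hB n g hc Pb ((Lg g ω).map (C : FF →+* FF[X])) g.natDegree hdeg
    obtain ⟨T, hTd⟩ : ∃ T : FF[X], T = ∑ e ∈ range g.natDegree,
        ((Lg g ω).map (C : FF →+* FF[X])).coeff e * NP FF n g Pb e := ⟨_, rfl⟩
    have hTc : ∀ j, g.natDegree ≤ j + n → T.coeff j = 0 := by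
      intro j hj
      rw [hTd, finset_sum_coeff]
      refine Finset.sum_eq_zero fun e he => ?_
      rw [coeff_map, coeff_C_mul, hco e ((Finset.mem_range.1 he).trans_le hk) j hj, mul_zero]
    have hTe : ∀ η ∈ rts g, T.eval η =
        ∑ i : Fin n, (pol Pb i).eval η * (Lg g ω).eval (η ^ (2 ^ (i : ℕ))) := by
      intro η hη
      rw [hTd, h1, eval_finset_sum, Finset.sum_eq_single_of_mem η hη]
      · rw [eval_finset_sum]
        refine Finset.sum_congr rfl fun i _ => ?_
        rw [eval_mul, eval_mul, eval_C, Lg_eval_self hη, mul_one, eval_map, eval₂_at_apply,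
          eval_C]
      · intro θ _ hθη
        rw [eval_finset_sum]
        refine Finset.sum_eq_zero fun i _ => ?_
        rw [eval_mul, eval_mul, Lg_eval_ne hη hθη, mul_zero, zero_mul]
    have hT0 : T = 0 := by
      refine eq_zero_of_degree_lt_of_eval_finset_eq_zero
        ((rts g).filter fun η => ∀ i : Fin n, η ^ (2 ^ (i : ℕ)) ≠ ω) ?_ ?_
      · have h2 : ((rts g).filter fun η => ¬ ∀ i : Fin n, η ^ (2 ^ (i : ℕ)) ≠ ω).card ≤ n := by
          have h3 : ∀ η : FF, ∃ i : Fin n, (¬ ∀ i : Fin n, η ^ (2 ^ (i : ℕ)) ≠ ω) →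
              η ^ (2 ^ (i : ℕ)) = ω := by
            intro η
            by_cases h : ∀ i : Fin n, η ^ (2 ^ (i : ℕ)) ≠ ω
            · exact ⟨⟨0, hc.npos⟩, fun h' => absurd h h'⟩
            · push Not at h
              obtain ⟨i, hi⟩ := h
              exact ⟨i, fun _ => hi⟩
          choose s hs using h3
          have h4 := Finset.card_le_card_of_injOn (s := (rts g).filter
            fun η => ¬ ∀ i : Fin n, η ^ (2 ^ (i : ℕ)) ≠ ω) (t := (Finset.univ : Finset (Fin n)))
            s (fun _ _ => Finset.mem_coe.2 (Finset.mem_univ _)) (by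
              intro a ha b hb' hab
              have ha1 := hs a (Finset.mem_filter.1 (Finset.mem_coe.1 ha)).2
              have hb1 := hs b (Finset.mem_filter.1 (Finset.mem_coe.1 hb')).2
              rw [hab] at ha1
              exact pow_inj _ (ha1.trans hb1.symm))
          simpa using h4
        have h3 := Finset.card_filter_add_card_filter_not (s := rts g)
          (fun η => ∀ i : Fin n, η ^ (2 ^ (i : ℕ)) ≠ ω)
        rw [degree_lt_iff_coeff_zero]
        intro m hm
        refine hTc m ?_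
        omega
      · intro η hη
        obtain ⟨hη1, hη2⟩ := Finset.mem_filter.1 hη
        rw [hTe η hη1]
        refine Finset.sum_eq_zero fun i _ => ?_
        rw [Lg_eval_ne (pow_mem hc hη1 i) (hη2 i).symm, mul_zero]
    have h2 := hTe ξ hξ
    rw [hT0, eval_zero] at h2
    exact h2.symm
  have hzero : ∀ i : Fin n, pol Pb i = 0 := by
    intro i
    refine eq_zero_of_degree_lt_of_eval_finset_eq_zero (rts g) ?_ ?_
    · rw [hcard]
      exact pol_degree_lt Pb i
    · intro ξ hξ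
      have h1 := hT (ξ ^ (2 ^ (i : ℕ))) (pow_mem hc hξ i) ξ hξ
      rw [Finset.sum_eq_single i] at h1
      · rwa [Lg_eval_self (pow_mem hc hξ i), mul_one] at h1
      · intro j _ hj
        rw [Lg_eval_ne (pow_mem hc hξ j) (pow_ne' hc hξ hj.symm), mul_zero]
      · intro h; exact absurd (Finset.mem_univ _) h
  refine hP0 ?_
  funext x
  have h1 := pol_coeff Pb x.1 x.2
  rw [hzero, coeff_zero] at h1
  rw [hPb] at h1
  exact h1.symm

end Pool.Agent.EDX.H45
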